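import Mathlib

set_option autoImplicit false

namespace Pool.Agent.H.MP_ae7646_al

open scoped TensorProduct

abbrev K : Type := AlgebraicClosure (ZMod 2)

theorem two {M : Type} [AddCommGroup M] [Module K M] (m : M) : m + m = 0 := by
  rw [← two_smul K m, show (2 : K) = 0 from CharTwo.two_eq_zero, zero_smul]

variable {G : Type} [Group G] (χ : G →* Multiplicative K)

abbrev F (G : Type) : Type := FreeAlgebra K (G ⊕ Bool)

/-- The defining relations, for elements of an arbitrary algebra. -/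
structure Good {B : Type} [Ring B] [Algebra K B] (γ : G → B) (x y : B) : Prop where
  one : γ 1 = 1
  mul : ∀ g h, γ g * γ h = γ (g * h)
  xx : x * x = 0
  yy : y * y = 0
  yx : y * x = x * y
  gx : ∀ g, γ g * x = x * γ g
  gy : ∀ g, γ g * y = (y + (χ g).toAdd • x) * γ g

open FreeAlgebra in
inductive rel : F G → F G → Prop
  | one : rel (ι K (.inl 1)) 1
  | mul (g h) : rel (ι K (.inl g) * ι K (.inl h)) (ι K (.inl (g * h)))
  | xx : rel (ι K (.inr false) * ι K (.inr false)) 0
  | yy : rel (ι K (.inr true) * ι K (.inr true)) 0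
  | yx : rel (ι K (.inr true) * ι K (.inr false)) (ι K (.inr false) * ι K (.inr true))
  | gx (g) : rel (ι K (.inl g) * ι K (.inr false)) (ι K (.inr false) * ι K (.inl g))
  | gy (g) : rel (ι K (.inl g) * ι K (.inr true))
      ((ι K (.inr true) + (χ g).toAdd • ι K (.inr false)) * ι K (.inl g))

def E : Type := RingQuot (rel χ)

noncomputable instance : Ring (E χ) := inferInstanceAs (Ring (RingQuot (rel χ)))
noncomputable instance : Algebra K (E χ) := inferInstanceAs (Algebra K (RingQuot (rel χ)))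

noncomputable def mk : F G →ₐ[K] E χ := RingQuot.mkAlgHom K (rel χ)

noncomputable def γ (g : G) : E χ := mk χ (FreeAlgebra.ι K (.inl g))
noncomputable def x : E χ := mk χ (FreeAlgebra.ι K (.inr false))
noncomputable def y : E χ := mk χ (FreeAlgebra.ι K (.inr true))

theorem mk_rel {a b : F G} (h : rel χ a b) : mk χ a = mk χ b := RingQuot.mkAlgHom_rel K h

theorem good : Good χ (γ χ) (x χ) (y χ) :=
  ⟨by simpa [γ, x, y] using mk_rel χ rel.one, fun g h => by simpa [γ, x, y] using mk_rel χ (rel.mul g h),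
    by simpa [γ, x, y] using mk_rel χ rel.xx, by simpa [γ, x, y] using mk_rel χ rel.yy, by simpa [γ, x, y] using mk_rel χ rel.yx,
    fun g => by simpa [γ, x, y] using mk_rel χ (rel.gx g), fun g => by simpa [γ, x, y] using mk_rel χ (rel.gy g)⟩

section lift
variable {χ} {B : Type} [Ring B] [Algebra K B] {γ' : G → B} {x' y' : B} (h : Good χ γ' x' y')

noncomputable def lift : E χ →ₐ[K] B :=
  RingQuot.liftAlgHom K ⟨FreeAlgebra.lift K (Sum.elim γ' fun b => cond b y' x'), by
    rintro _ _ (_ | _ | _ | _ | _ | _ | _) <;> simp [h.one, h.mul, h.xx, h.yy, h.yx, h.gx, h.gy]⟩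

@[simp] theorem lift_γ (g : G) : lift h (γ χ g) = γ' g :=
  (RingQuot.liftAlgHom_mkAlgHom_apply K _ _ _).trans (FreeAlgebra.lift_ι_apply _ _)
@[simp] theorem lift_x : lift h (x χ) = x' :=
  (RingQuot.liftAlgHom_mkAlgHom_apply K _ _ _).trans (FreeAlgebra.lift_ι_apply _ _)
@[simp] theorem lift_y : lift h (y χ) = y' :=
  (RingQuot.liftAlgHom_mkAlgHom_apply K _ _ _).trans (FreeAlgebra.lift_ι_apply _ _)
end lift

theorem ind {P : E χ → Prop} (a : E χ) (h0 : ∀ c, P (algebraMap K _ c)) (h1 : ∀ g, P (γ χ g))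
    (h2 : P (x χ)) (h3 : P (y χ)) (hm : ∀ a b, P a → P b → P (a * b))
    (ha : ∀ a b, P a → P b → P (a + b)) : P a := by
  obtain ⟨a, rfl⟩ : ∃ b, mk χ b = a := RingQuot.mkAlgHom_surjective K _ a
  induction a using FreeAlgebra.induction with
  | grade0 c => rw [AlgHom.commutes]; exact h0 c
  | grade1 i => rcases i with g | _ | _; exacts [h1 g, h2, h3]
  | mul a b p q => rw [map_mul]; exact hm _ _ p q
  | add a b p q => rw [map_add]; exact ha _ _ p q

theorem ext {B : Type} [Semiring B] [Algebra K B] {f f' : E χ →ₐ[K] B}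
    (h1 : ∀ g, f (γ χ g) = f' (γ χ g)) (h2 : f (x χ) = f' (x χ)) (h3 : f (y χ) = f' (y χ)) : f = f' :=
  AlgHom.ext fun a => ind χ (P := fun a => f a = f' a) a (fun c => by simp) h1 h2 h3
    (fun a b p q => by simp [p, q]) fun a b p q => by simp [p, q]

theorem sq {A : Type} [Ring A] [Algebra K A] {a : A} (h : a * a = 0) :
    (a ⊗ₜ[K] 1 + 1 ⊗ₜ[K] a : A ⊗[K] A) * (a ⊗ₜ[K] 1 + 1 ⊗ₜ[K] a) = 0 := by
  simp [mul_add, add_mul, h, two]

noncomputable def cm : E χ →ₐ[K] E χ ⊗[K] E χ :=
  lift (γ' := fun g => γ χ g ⊗ₜ γ χ g) (x' := x χ ⊗ₜ 1 + 1 ⊗ₜ x χ) (y' := y χ ⊗ₜ 1 + 1 ⊗ₜ y χ)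
    ⟨by simp [(good χ).one, Algebra.TensorProduct.one_def], by simp [(good χ).mul], sq (good χ).xx,
      sq (good χ).yy, by simp [mul_add, add_mul, (good χ).yx]; abel,
      by simp [mul_add, add_mul, (good χ).gx], fun g => by
        simp [mul_add, add_mul, (good χ).gy, TensorProduct.add_tmul, TensorProduct.tmul_add,
          TensorProduct.smul_tmul']; abel⟩

noncomputable def cu : E χ →ₐ[K] K :=
  lift (γ' := fun _ => 1) (x' := 0) (y' := 0) ⟨rfl, by simp, by simp, by simp, by simp, by simp, by simp⟩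

open MulOpposite in
noncomputable def an : E χ →ₐ[K] (E χ)ᵐᵒᵖ :=
  lift (γ' := fun g => op (γ χ g⁻¹)) (x' := op (x χ)) (y' := op (y χ))
    ⟨by simp [(good χ).one], by simp [← op_mul, (good χ).mul], by simp [← op_mul, (good χ).xx],
      by simp [← op_mul, (good χ).yy], by simp [← op_mul, (good χ).yx],
      by simp [← op_mul, (good χ).gx], fun g => by
        rw [← op_smul, ← op_add, ← op_mul, ← op_mul, mul_add, (good χ).gy, mul_smul_comm, (good χ).gx]
        simp [add_mul]⟩

theorem cm_γ (g : G) : cm χ (γ χ g) = γ χ g ⊗ₜ γ χ g := lift_γ _ _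
theorem cm_x : cm χ (x χ) = x χ ⊗ₜ 1 + 1 ⊗ₜ x χ := lift_x _
theorem cm_y : cm χ (y χ) = y χ ⊗ₜ 1 + 1 ⊗ₜ y χ := lift_y _
theorem cu_γ (g : G) : cu χ (γ χ g) = 1 := lift_γ _ _
theorem cu_x : cu χ (x χ) = 0 := lift_x _
theorem cu_y : cu χ (y χ) = 0 := lift_y _

noncomputable instance : Bialgebra K (E χ) :=
  Bialgebra.ofAlgHom (cm χ) (cu χ)
    (ext χ (by simp [cm_γ]) (by
      simp [cm_x, Algebra.TensorProduct.one_def, TensorProduct.add_tmul, TensorProduct.tmul_add,
        add_assoc]) (by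
      simp [cm_y, Algebra.TensorProduct.one_def, TensorProduct.add_tmul, TensorProduct.tmul_add,
        add_assoc]))
    (ext χ (by simp [cm_γ, cu_γ]) (by simp [cm_x, cu_x]) (by simp [cm_y, cu_y]))
    (ext χ (by simp [cm_γ, cu_γ]) (by simp [cm_x, cu_x]) (by simp [cm_y, cu_y]))

noncomputable def S : E χ →ₗ[K] E χ := (MulOpposite.opLinearEquiv K).symm.toLinearMap ∘ₗ (an χ).toLinearMap

theorem S_γ (g : G) : S χ (γ χ g) = γ χ g⁻¹ := by simp [S, an]
theorem S_x : S χ (x χ) = x χ := by simp [S, an]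
theorem S_y : S χ (y χ) = y χ := by simp [S, an]
theorem S_mul (a b : E χ) : S χ (a * b) = S χ b * S χ a := by simp [S]
theorem S_one : S χ 1 = 1 := by simp [S]

noncomputable instance : HopfAlgebra K (E χ) where
  antipode := S χ
  mul_antipode_rTensor_comul := LinearMap.ext fun a => by
    change LinearMap.mul' K _ ((S χ).rTensor _ (cm χ a)) = algebraMap K _ (cu χ a)
    have k : ∀ (t : E χ ⊗[K] E χ) b c, LinearMap.mul' K _ ((S χ).rTensor _ (t * b ⊗ₜ c)) =
        S χ b * LinearMap.mul' K _ ((S χ).rTensor _ t) * c := fun t b c => by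
      induction t <;> simp_all [S_mul, mul_assoc, add_mul, mul_add]
    induction a using ind
    on_goal 6 => simp [*]
    on_goal 5 => rename_i a b p q
    · simp [Algebra.algebraMap_eq_smul_one, Algebra.TensorProduct.one_def, S_one]
    · simp [cm_γ, cu_γ, S_γ, (good χ).mul, (good χ).one]
    · simp [cm_x, cu_x, S_x, S_one, two]
    · simp [cm_y, cu_y, S_y, S_one, two]
    · rw [map_mul (cm χ), map_mul (cu χ), map_mul (algebraMap K _), ← q]
      induction cm χ b with
      | zero => simp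
      | add x y h1 h2 => simp only [mul_add, map_add, h1, h2]
      | tmul x y => rw [k, p, ← Algebra.commutes]; simp [mul_assoc]
  mul_antipode_lTensor_comul := LinearMap.ext fun a => by
    change LinearMap.mul' K _ ((S χ).lTensor _ (cm χ a)) = algebraMap K _ (cu χ a)
    have k : ∀ (t : E χ ⊗[K] E χ) b c, LinearMap.mul' K _ ((S χ).lTensor _ (b ⊗ₜ c * t)) =
        b * LinearMap.mul' K _ ((S χ).lTensor _ t) * S χ c := fun t b c => by
      induction t <;> simp_all [S_mul, mul_assoc, add_mul, mul_add]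
    induction a using ind
    on_goal 6 => simp [*]
    on_goal 5 => rename_i a b p q
    · simp [Algebra.algebraMap_eq_smul_one, Algebra.TensorProduct.one_def, S_one]
    · simp [cm_γ, cu_γ, S_γ, (good χ).mul, (good χ).one]
    · simp [cm_x, cu_x, S_x, S_one, two]
    · simp [cm_y, cu_y, S_y, S_one, two]
    · rw [map_mul (cm χ), map_mul (cu χ), map_mul (algebraMap K _), ← p]
      induction cm χ a with
      | zero => simp
      | add x y h1 h2 => simp only [add_mul, map_add, h1, h2]
      | tmul x y => rw [k, q, mul_assoc, Algebra.commutes]; simp [mul_assoc]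

/-- The monomial basis. -/
noncomputable def w (p : G × Fin 4) : E χ := ![1, x χ, y χ, x χ * y χ] p.2 * γ χ p.1

theorem span_top : Submodule.span K (Set.range (w χ)) = ⊤ := by
  set T := Submodule.span K (Set.range (w χ))
  have m : ∀ g i, w χ (g, i) ∈ T := fun g i => Submodule.subset_span ⟨_, rfl⟩
  have cl : ∀ a : E χ, (∀ p, a * w χ p ∈ T) → ∀ s ∈ T, a * s ∈ T := fun a h s hs => by
    induction hs using Submodule.span_induction with
    | mem s hs => obtain ⟨p, rfl⟩ := hs; exact h p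
    | zero => simp
    | add a b _ _ ha hb => exact mul_add _ a b ▸ T.add_mem ha hb
    | smul r a _ ha => exact mul_smul_comm r _ a ▸ T.smul_mem r ha
  obtain ⟨g1, gm, xx, yy, yx, gx, gy⟩ := good χ
  have key : ∀ a : E χ, ∀ s ∈ T, a * s ∈ T := fun a => by
    induction a using ind with
    | h0 r => intro s hs; simpa [← Algebra.smul_def] using T.smul_mem r hs
    | h1 g =>
      refine cl _ fun ⟨h, i⟩ => ?_
      fin_cases i
      · simpa [w, gm] using m (g * h) 0
      · simpa [w, ← mul_assoc, gx, mul_assoc _ (γ χ g), gm] using m (g * h) 1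
      · simpa [w, ← mul_assoc, gy, mul_assoc _ (γ χ g), gm, add_mul] using
          add_mem (m (g * h) 2) (T.smul_mem (χ g).toAdd (m (g * h) 1))
      · have : γ χ g * (x χ * y χ) = x χ * y χ * γ χ g := by
          rw [← mul_assoc, gx, mul_assoc, gy, ← mul_assoc, mul_add, mul_smul_comm, xx]; simp
        simpa [w, ← mul_assoc _ _ (γ χ h), this, mul_assoc _ (γ χ g), gm] using m (g * h) 3
    | h2 =>
      refine cl _ fun ⟨h, i⟩ => ?_
      fin_cases i
      · simpa [w] using m h 1
      · simp [w, ← mul_assoc, xx]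
      · simpa [w, ← mul_assoc] using m h 3
      · simp [w, ← mul_assoc, xx]
    | h3 =>
      refine cl _ fun ⟨h, i⟩ => ?_
      fin_cases i
      · simpa [w] using m h 2
      · simpa [w, ← mul_assoc, yx] using m h 3
      · simp [w, ← mul_assoc, yy]
      · simp [w, ← mul_assoc, yx, mul_assoc _ (y χ) (y χ), yy]
    | hm a b ha hb => intro s hs; rw [mul_assoc]; exact ha _ (hb _ hs)
    | ha a b ha hb => intro s hs; rw [add_mul]; exact T.add_mem (ha _ hs) (hb _ hs)
  refine eq_top_iff.2 fun a _ => ?_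
  simpa [w, g1] using key a _ (m 1 0)

/-- The regular representation in coordinates. -/
noncomputable def Lg (g : G) : Module.End K (G × Fin 4 → K) where
  toFun f p := ![f (g⁻¹ * p.1, 0), f (g⁻¹ * p.1, 1) + (χ g).toAdd * f (g⁻¹ * p.1, 2), f (g⁻¹ * p.1, 2),
    f (g⁻¹ * p.1, 3)] p.2
  map_add' f f' := by ext ⟨h, i⟩; fin_cases i <;> simp; ring
  map_smul' c f := by ext ⟨h, i⟩; fin_cases i <;> simp; ring

noncomputable def Lx (G : Type) : Module.End K (G × Fin 4 → K) where
  toFun f p := ![0, f (p.1, 0), 0, f (p.1, 2)] p.2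
  map_add' f f' := by ext ⟨h, i⟩; fin_cases i <;> simp
  map_smul' c f := by ext ⟨h, i⟩; fin_cases i <;> simp

noncomputable def Ly (G : Type) : Module.End K (G × Fin 4 → K) where
  toFun f p := ![0, 0, f (p.1, 0), f (p.1, 1)] p.2
  map_add' f f' := by ext ⟨h, i⟩; fin_cases i <;> simp
  map_smul' c f := by ext ⟨h, i⟩; fin_cases i <;> simp

noncomputable def rep : E χ →ₐ[K] Module.End K (G × Fin 4 → K) :=
  lift (γ' := Lg χ) (x' := Lx G) (y' := Ly G) <| by
    refine ⟨?_, fun g h => ?_, ?_, ?_, ?_, fun g => ?_, fun g => ?_⟩ <;>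
      refine LinearMap.ext fun f => funext fun ⟨k, i⟩ => ?_ <;> fin_cases i <;>
      simp [Lg, Lx, Ly, mul_assoc]
    · ring
    · rw [add_assoc, two, add_zero]

variable [DecidableEq G]

/-- Coordinates. -/
noncomputable def co (p : G × Fin 4) : E χ →ₗ[K] K where
  toFun a := rep χ a (Pi.single (1, 0) 1) p
  map_add' a b := by simp
  map_smul' c a := by simp

theorem co_w (p q : G × Fin 4) : co χ p (w χ q) = if p = q then 1 else 0 := by
  obtain ⟨g, i⟩ := p
  obtain ⟨h, j⟩ := q
  fin_cases i <;> fin_cases j <;>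
    simp [co, w, rep, Lg, Lx, Ly, Pi.single_apply, inv_mul_eq_one, eq_comm (a := h)]

end Pool.Agent.H.MP_ae7646_al
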