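import Pool.Agent.H.MP_ae7646_al.A

set_option autoImplicit false

namespace Pool.Agent.H.MP_ae7646_al

open scoped TensorProduct

variable {G : Type} [Group G] [DecidableEq G] [Fintype G] (χ : G →* Multiplicative K)

theorem expand (a : E χ) : a = ∑ p, co χ p a • w χ p := by
  have : LinearMap.id = ∑ p, (co χ p).smulRight (w χ p) :=
    LinearMap.ext_on_range (span_top χ) fun q => by simp [co_w]
  simpa using LinearMap.congr_fun this a

/-- Products of coordinates. -/
noncomputable def T (p q : G × Fin 4) : E χ ⊗[K] E χ →ₗ[K] K :=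
  TensorProduct.lift ((LinearMap.mul K K).compl₁₂ (co χ p) (co χ q))

omit [Fintype G] in
theorem T_tmul (p q : G × Fin 4) (a b : E χ) : T χ p q (a ⊗ₜ b) = co χ p a * co χ q b := by simp [T]

omit [Fintype G] in
theorem conv (a : E χ) (g h : G) : T χ (g, 0) (h, 0) (cm χ a) = (if g = h then co χ (g, 0) a else 0) ∧
    T χ (g, 1) (g, 1) (cm χ a) = 0 ∧ T χ (g, 2) (g, 2) (cm χ a) = 0 ∧
    T χ (g, 1) (g, 2) (cm χ a) = co χ (g, 3) a ∧ T χ (g, 1) (g, 0) (cm χ a) = co χ (g, 1) a ∧
    T χ (g, 2) (g, 0) (cm χ a) = co χ (g, 2) a := by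
  have ha : a ∈ Submodule.span K (Set.range (w χ)) := span_top χ ▸ trivial
  induction ha using Submodule.span_induction with
  | mem s hs =>
    obtain ⟨⟨k, i⟩, rfl⟩ := hs
    have e0 : ∀ p, co χ p (γ χ k) = if p = (k, 0) then 1 else 0 := fun p => by simpa [w] using co_w χ p (k, 0)
    have e1 : ∀ p, co χ p (x χ * γ χ k) = if p = (k, 1) then 1 else 0 := fun p => by
      simpa [w] using co_w χ p (k, 1)
    have e2 : ∀ p, co χ p (y χ * γ χ k) = if p = (k, 2) then 1 else 0 := fun p => by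
      simpa [w] using co_w χ p (k, 2)
    have e3 : ∀ p, co χ p (x χ * y χ * γ χ k) = if p = (k, 3) then 1 else 0 := fun p => by
      simpa [w] using co_w χ p (k, 3)
    fin_cases i <;> simp [w, cm_γ, cm_x, cm_y, mul_add, add_mul, T_tmul, e0, e1, e2, e3]
    split_ifs <;> simp_all
  | zero => simp
  | add a b _ _ p q =>
    simp only [map_add, p, q, add_zero, and_self, and_true]
    split_ifs <;> simp
  | smul c a _ p =>
    simp only [map_smul, p, smul_zero, and_self, and_true]
    split_ifs <;> simp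

theorem grp {u : E χ} (h : cm χ u = u ⊗ₜ u) (h0 : u ≠ 0) : ∃ g, u = γ χ g := by
  have c := conv χ u
  simp only [h, T_tmul, mul_self_eq_zero] at c
  have e := expand χ u
  have z3 : ∀ g, co χ (g, 3) u = 0 := fun g => by rw [← (c g g).2.2.2.1, (c g g).2.1, zero_mul]
  simp only [Fintype.sum_prod_type, Fin.sum_univ_four, fun g => (c g g).2.1, fun g => (c g g).2.2.1, z3,
    zero_smul, add_zero] at e
  obtain ⟨g, hg⟩ : ∃ g, co χ (g, 0) u ≠ 0 := by
    by_contra! k
    exact h0 (by simpa [k] using e)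
  refine ⟨g, e.trans ?_⟩
  rw [Finset.sum_eq_single g (fun k _ hk => ?_) (by simp)]
  · have := (c g g).1
    rw [if_pos rfl, mul_left_eq_self₀] at this
    simp [this.resolve_right hg, w]
  · have := (c g k).1
    rw [if_neg hk.symm, mul_eq_zero] at this
    simp [this.resolve_left hg]

theorem prim {u : E χ} (h : cm χ u = u ⊗ₜ 1 + 1 ⊗ₜ u) : ∃ a b : K, u = a • x χ + b • y χ := by
  have c := conv χ u
  have e0 : ∀ p, co χ p 1 = if p = (1, 0) then 1 else 0 := fun p => by
    simpa [w, (good χ).one] using co_w χ p (1, 0)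
  simp only [h, map_add, T_tmul, e0] at c
  refine ⟨co χ (1, 1) u, co χ (1, 2) u, (expand χ u).trans ?_⟩
  have z0 : ∀ g, co χ (g, 0) u = 0 := fun g => by
    have := (c g g).1
    by_cases k : g = 1 <;> simp_all [two]
  have z3 : ∀ g, co χ (g, 3) u = 0 := fun g => by simpa using (c g g).2.2.2.1.symm
  simp only [Fintype.sum_prod_type, Fin.sum_univ_four, z0, z3, zero_smul, add_zero, zero_add]
  rw [Finset.sum_eq_single 1 (fun k _ hk => ?_) (by simp)]
  · simp [w, (good χ).one]
  · have a := (c k k).2.2.2.2.1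
    have b := (c k k).2.2.2.2.2
    simp [hk] at a b
    simp [← a, ← b]

theorem inv {χ χ' : G →* Multiplicative K} (φ : E χ ≃ₐc[K] E χ') (g h : G) (hg : (χ g).toAdd = 1) :
    ∃ g' h', (χ h).toAdd = (χ' h').toAdd / (χ' g').toAdd := by
  have cφ : ∀ a, cm χ' (φ a) = TensorProduct.map (φ : E χ →ₗ[K] E χ') φ (cm χ a) := fun a =>
    (CoalgHomClass.map_comp_comul_apply φ a).symm
  have G1 : ∀ k, ∃ k', φ (γ χ k) = γ χ' k' := fun k => grp χ' (by simp [cφ, cm_γ]) fun e => by
    have := co_w χ (k, 0) (k, 0)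
    simp [w, (map_eq_zero_iff φ (EquivLike.injective φ)).1 e] at this
  obtain ⟨a, b, e⟩ := prim χ' (u := φ (y χ)) (by simp [cφ, cm_y])
  have key : ∀ k, ∃ k', (χ k).toAdd • φ (x χ) = (b * (χ' k').toAdd) • x χ' := fun k => by
    obtain ⟨k', e'⟩ := G1 k
    have := congrArg (fun z => φ z * γ χ' k'⁻¹) ((good χ).gy k)
    simp only [map_mul, map_add, map_smul, e, e', mul_add, mul_smul_comm, (good χ').gx, (good χ').gy,
      add_mul, smul_mul_assoc, mul_assoc, (good χ').mul, mul_inv_cancel, (good χ').one, mul_one,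
      smul_add, smul_smul, add_assoc, add_right_inj] at this
    exact ⟨k', this.symm⟩
  obtain ⟨g', e1⟩ := key g
  obtain ⟨h', e2⟩ := key h
  rw [hg, one_smul] at e1
  have x0 : ∀ χ : G →* Multiplicative K, co χ (1, 1) (x χ) = 1 := fun χ => by
    simpa [w, (good χ).one] using co_w χ (1, 1) (1, 1)
  have ne : b * (χ' g').toAdd ≠ 0 := fun k => by
    have := x0 χ
    rw [k, zero_smul] at e1
    simp [(map_eq_zero_iff φ (EquivLike.injective φ)).1 e1] at this
  have := congrArg (co χ' (1, 1)) e2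
  simp only [e1, map_smul, x0, smul_eq_mul, mul_one] at this
  refine ⟨g', h', ?_⟩
  rw [eq_div_iff (right_ne_zero_of_mul ne)]
  exact mul_left_cancel₀ (left_ne_zero_of_mul ne) (by rw [← this]; ring)

abbrev A : Type := E (1 : Unit →* Multiplicative K)

noncomputable def iA : A →ₐc[K] E χ := BialgHom.ofAlgHom
  (lift (γ' := fun _ => 1) (x' := x χ) (y' := y χ)
    ⟨rfl, by simp, (good χ).xx, (good χ).yy, (good χ).yx, by simp, by simp⟩)
  (ext _ (fun g => by show cu χ _ = cu _ _; simp [cu_γ]) (by show cu χ _ = cu _ _; simp [cu_x])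
    (by show cu χ _ = cu _ _; simp [cu_y]))
  (ext _ (fun g => by
      show Algebra.TensorProduct.map _ _ (cm _ _) = cm χ _
      simp [cm_γ, Algebra.TensorProduct.one_def])
    (by show Algebra.TensorProduct.map _ _ (cm _ _) = cm χ _; simp [cm_x])
    (by show Algebra.TensorProduct.map _ _ (cm _ _) = cm χ _; simp [cm_y]))

noncomputable def jH : MonoidAlgebra K G →ₐc[K] E χ := BialgHom.ofAlgHom
  (MonoidAlgebra.lift K _ G ⟨⟨γ χ, (good χ).one⟩, fun g h => ((good χ).mul g h).symm⟩)
  (by ext g; simpa using (show Coalgebra.counit (γ χ g) = (1 : K) from cu_γ χ g))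
  (by ext g; simpa using (show Coalgebra.comul (R := K) (γ χ g) = _ from cm_γ χ g).symm)

noncomputable def μ : A ⊗[K] MonoidAlgebra K G →ₗ[K] E χ :=
  TensorProduct.lift (((LinearMap.mul K (E χ)).comp (iA χ).toLinearMap).compl₂ (jH χ).toLinearMap)

omit [DecidableEq G] [Fintype G] in
theorem μ_t (a : A) (b : MonoidAlgebra K G) : μ χ (a ⊗ₜ b) = iA χ a * jH χ b := rfl

omit [DecidableEq G] [Fintype G] in
theorem μ_w (p : G × Fin 4) : μ χ (w 1 ((), p.2) ⊗ₜ MonoidAlgebra.single p.1 1) = w χ p := by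
  obtain ⟨g, i⟩ := p
  fin_cases i <;> simp [μ_t, iA, jH, w]

theorem μ_bij : Function.Bijective (μ χ) := by
  have sp : ∀ t : A ⊗[K] MonoidAlgebra K G, ∃ c : G × Fin 4 → K,
      t = ∑ p, c p • w 1 ((), p.2) ⊗ₜ MonoidAlgebra.single p.1 1 := fun t => by
    induction t with
    | zero => exact ⟨0, by simp⟩
    | add a b p q =>
      obtain ⟨c, rfl⟩ := p
      obtain ⟨d, rfl⟩ := q
      exact ⟨c + d, by simp [add_smul, Finset.sum_add_distrib]⟩
    | tmul a b =>
      refine ⟨fun p => b.coeff p.1 * co 1 ((), p.2) a, ?_⟩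
      have eb : b = ∑ g, b.coeff g • MonoidAlgebra.single g (1 : K) := by
        ext g; simp
      conv_lhs => rw [expand 1 a, eb]
      simp only [Fintype.sum_prod_type, Finset.univ_unique, Finset.sum_singleton, TensorProduct.sum_tmul,
        TensorProduct.tmul_sum, TensorProduct.tmul_smul, ← TensorProduct.smul_tmul', smul_smul,
        Finset.smul_sum]
  refine ⟨(injective_iff_map_eq_zero _).2 fun t h => ?_, fun a => ⟨∑ p, co χ p a •
    w 1 ((), p.2) ⊗ₜ MonoidAlgebra.single p.1 1, by simp only [map_sum, map_smul, μ_w, ← expand]⟩⟩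
  obtain ⟨c, rfl⟩ := sp t
  have : ∀ p, c p = 0 := fun p => by simpa [μ_w, co_w] using congrArg (co χ p) h
  simp [this]

theorem iA_inj : Function.Injective (iA χ) := (injective_iff_map_eq_zero _).2 fun a h => by
  have : a ⊗ₜ[K] (1 : MonoidAlgebra K G) = 0 := (injective_iff_map_eq_zero _).1 (μ_bij χ).1 _ (by
    simp [μ_t, h])
  simpa using congrArg (fun t => TensorProduct.rid K A (LinearMap.lTensor A Coalgebra.counit t)) this

theorem jH_inj : Function.Injective (jH χ) := (injective_iff_map_eq_zero _).2 fun a h => by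
  have : (1 : A) ⊗ₜ[K] a = 0 := (injective_iff_map_eq_zero _).1 (μ_bij χ).1 _ (by simp [μ_t, h])
  simpa using congrArg (fun t => TensorProduct.lid K _ (LinearMap.rTensor _ Coalgebra.counit t)) this

abbrev V : Type := Multiplicative (ZMod 2 × ZMod 2)

noncomputable def ch (l : K) : V →* Multiplicative K := AddMonoidHom.toMultiplicative
  { toFun := fun g => algebraMap (ZMod 2) K g.1 + algebraMap (ZMod 2) K g.2 * l
    map_zero' := by simp
    map_add' := fun a b => by simp; ring }

theorem seq : ∃ s : ℕ → K, ∀ m n, m < n → IsEmpty (E (ch (s n)) ≃ₐc[K] E (ch (s m))) := by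
  classical
  obtain ⟨s, -, hs⟩ := exists_seq_of_forall_finset_exists (fun _ : K => True)
    (fun a b => ∀ g h : V, b ≠ (ch a h).toAdd / (ch a g).toAdd) fun t _ => by
      obtain ⟨b, hb⟩ := Infinite.exists_notMem_finset
        ((t ×ˢ (Finset.univ : Finset (V × V))).image fun q => (ch q.1 q.2.2).toAdd / (ch q.1 q.2.1).toAdd)
      exact ⟨b, trivial, fun a ha g h e => hb (Finset.mem_image.2 ⟨(a, g, h), by simpa using ha, e.symm⟩)⟩
  refine ⟨s, fun m n h => ⟨fun φ => ?_⟩⟩
  obtain ⟨g, k, e⟩ := inv φ (.ofAdd (1, 0)) (.ofAdd (0, 1)) (by simp [ch])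
  exact hs m n h g k (by simpa [ch] using e)

end Pool.Agent.H.MP_ae7646_al
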